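import Pool.Agent.H178R3.GorFinal

/-!
# Uniqueness of extremal non-pyramid Gorenstein polytopes

Every Gorenstein polytope of dimension `3 s - 1` and degree `s` that is not a lattice pyramid is
isomorphic to the Cayley polytope `C_s`.
-/

set_option autoImplicit false

open Set Pointwise Pool.Agent.H178R3.Gor

namespace Pool.Agent.Results.MP_92a118_co.ExtremalGorenstein

/-- **Positive answer to Q1.** Let `s ≥ 1` and let `P ⊆ ℝ^d`, `d = 3 s - 1`, be a full-dimensional
Gorenstein polytope of codegree `r` and degree `s = d + 1 - r`. If `P` is not a lattice pyramid,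
then `P` is isomorphic to `C_s`. -/
theorem result (s d r : ℕ) (_hs : 1 ≤ s) (hd : d + 1 = 3 * s) (P : Set (Fin d → ℝ))
    (hP : IsGorenstein P r) (hdeg : s + r = d + 1) (hpyr : ¬ IsLatticePyramid P) :
    LatIso P (Cs s) := by
  obtain ⟨⟨S, hfin, hS, rfl⟩, -, ⟨⟨hr, -⟩, -⟩, m, hm, -, h0, T, hTfin, hT, hdual⟩ := hP
  obtain ⟨V, rfl⟩ : ∃ V : Finset (Fin d → ℝ), S = (V : Set (Fin d → ℝ)) :=
    ⟨hfin.toFinset, by simp⟩
  obtain ⟨Y, rfl⟩ : ∃ Y : Finset (Fin d → ℝ), T = (Y : Set (Fin d → ℝ)) :=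
    ⟨hTfin.toFinset, by simp⟩
  exact latIso_Cs ⟨by omega, hS, hT, hm, hr, h0, hdual⟩ hpyr hd (by omega)

end Pool.Agent.Results.MP_92a118_co.ExtremalGorenstein
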